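import Pool.Agent.H96.F2.Upper
import Pool.Agent.H15.F2.Low

/-! The two-sided theorem on popular sums in `F_2^n`, from (E''). -/

set_option autoImplicit false

namespace Pool.Agent.H66.EP

open Finset

/-- the number of representations, as a filter of all tuples -/
theorem rep_eq_filter (n p : ℕ) (A : Finset (Fin n → ZMod 2)) (v : Fin n → ZMod 2) :
    (Pool.H15.F2.rep p A v : ℕ) = (Finset.univ.filter fun x : Fin p → (Fin n → ZMod 2) =>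
      (∀ i, x i ∈ A) ∧ ∑ i, x i = v).card := by
  classical
  rw [Pool.H15.F2.rep_eq]
  congr 1
  ext x
  simp [Fintype.mem_piFinset]

theorem final {C : ℝ} (hC : 1 ≤ C) (hE : F2.B.EPP C) :
    (∃ C : ℝ, 0 < C ∧ ∀ k : ℕ, 2 ≤ k → ∀ n : ℕ, ∀ A : Finset (Fin n → ZMod 2), A.Nonempty →
      ∃ V : Submodule (ZMod 2) (Fin n → ZMod 2),
        (n : ℝ) - Module.finrank (ZMod 2) V ≤
          C * (Real.log ((2 : ℝ) ^ n / A.card)) ^ ((k : ℝ) / ((k : ℝ) - 1)) ∧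
        ∀ v ∈ V, (4 / 5) * (A.card : ℝ) ^ (2 * k) / (2 : ℝ) ^ n ≤
          ((Finset.univ.filter fun x : Fin (2 * k) → (Fin n → ZMod 2) =>
            (∀ i, x i ∈ A) ∧ ∑ i, x i = v).card : ℝ)) ∧
    (∃ c : ℝ, 0 < c ∧ ∀ k m : ℕ, 2 ≤ k → 1 ≤ m → ∀ K : ℝ, 0 ≤ K →
      ∃ (n : ℕ) (A : Finset (Fin n → ZMod 2)), A.card * 2 ^ m = 2 ^ n ∧
        ∀ V : Submodule (ZMod 2) (Fin n → ZMod 2),
          (∀ v ∈ V, Real.exp (-K) * (A.card : ℝ) ^ (2 * k) / (2 : ℝ) ^ n ≤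
            ((Finset.univ.filter fun x : Fin (2 * k) → (Fin n → ZMod 2) =>
              (∀ i, x i ∈ A) ∧ ∑ i, x i = v).card : ℝ)) →
          c * (m : ℝ) ^ ((k : ℝ) / ((k : ℝ) - 1)) ≤
            (K + 1) ^ (1 / ((k : ℝ) - 1)) * ((n : ℝ) - Module.finrank (ZMod 2) V)) := by
  refine ⟨F2.B.upper hC hE, 1 / 219 ^ 2, by positivity, ?_⟩
  intro k m hk hm K hK
  obtain ⟨n, A, hA, h⟩ := Pool.H15.F2.low_main k m hk hm K hK
  refine ⟨n, A, hA, fun V hV => ?_⟩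
  have h1 := h V fun v hv => by
    have := hV v hv
    rw [rep_eq_filter]
    exact this
  have hfin : Module.finrank (ZMod 2) V ≤ n := by
    have := V.finrank_le
    simpa using this
  rw [Nat.cast_sub hfin] at h1
  set d : ℝ := (n : ℝ) - Module.finrank (ZMod 2) V with hd
  have hd0 : 0 ≤ d := by
    rw [hd, sub_nonneg]; exact_mod_cast hfin
  have hk1 : (0 : ℝ) < (k : ℝ) - 1 := by
    have : (2 : ℝ) ≤ k := by exact_mod_cast hk
    linarith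
  have hm0 : (0 : ℝ) ≤ m := Nat.cast_nonneg m
  -- take the (k-1)-th root
  have h2 : ((m : ℝ) ^ k) ^ (1 / ((k : ℝ) - 1)) ≤
      (219 ^ k * (K + 1) * d ^ (k - 1)) ^ (1 / ((k : ℝ) - 1)) :=
    Real.rpow_le_rpow (by positivity) h1 (by positivity)
  have e1 : ((m : ℝ) ^ k) ^ (1 / ((k : ℝ) - 1)) = (m : ℝ) ^ ((k : ℝ) / ((k : ℝ) - 1)) := by
    rw [← Real.rpow_natCast, ← Real.rpow_mul hm0]
    congr 1
    ring
  have e2 : (219 ^ k * (K + 1) * d ^ (k - 1)) ^ (1 / ((k : ℝ) - 1)) =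
      (219 : ℝ) ^ ((k : ℝ) / ((k : ℝ) - 1)) * (K + 1) ^ (1 / ((k : ℝ) - 1)) * d := by
    rw [Real.mul_rpow (by positivity) (by positivity), Real.mul_rpow (by positivity) (by positivity)]
    congr 1
    · congr 1
      rw [← Real.rpow_natCast, ← Real.rpow_mul (by norm_num)]
      congr 1
      ring
    · rw [← Real.rpow_natCast, ← Real.rpow_mul hd0, Nat.cast_sub (by omega), Nat.cast_one,
        mul_one_div_cancel hk1.ne', Real.rpow_one]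
  rw [e1, e2] at h2
  have h3 : (219 : ℝ) ^ ((k : ℝ) / ((k : ℝ) - 1)) ≤ 219 ^ 2 := by
    rw [← Real.rpow_natCast]
    refine Real.rpow_le_rpow_of_exponent_le (by norm_num) ?_
    rw [div_le_iff₀ hk1]
    have : (2 : ℝ) ≤ k := by exact_mod_cast hk
    push_cast
    linarith
  have h4 : (0 : ℝ) ≤ (K + 1) ^ (1 / ((k : ℝ) - 1)) * d := by positivity
  calc 1 / 219 ^ 2 * (m : ℝ) ^ ((k : ℝ) / ((k : ℝ) - 1))
      ≤ 1 / 219 ^ 2 * ((219 : ℝ) ^ ((k : ℝ) / ((k : ℝ) - 1)) * (K + 1) ^ (1 / ((k : ℝ) - 1)) * d) := by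
        gcongr
    _ = 1 / 219 ^ 2 * ((219 : ℝ) ^ ((k : ℝ) / ((k : ℝ) - 1)) * ((K + 1) ^ (1 / ((k : ℝ) - 1)) * d)) := by
        ring
    _ ≤ 1 / 219 ^ 2 * (219 ^ 2 * ((K + 1) ^ (1 / ((k : ℝ) - 1)) * d)) := by
        gcongr
    _ = _ := by ring

end Pool.Agent.H66.EP
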