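import Pool.Agent.H96.F2.Upper

/-! (E'') for two probability laws on `F_2^n`, in elementary terms. -/

set_option autoImplicit false

namespace Pool.Agent.H66.EP

open Finset H2INV

noncomputable section

variable {n : ℕ}

/-- the family with one member -/
def one (p : (Fin n → ZMod 2) → ℝ) (hp : IsPM p) : F2.Fam (Fin n → ZMod 2) where
  Om := Fin n → ZMod 2
  fin := inferInstance
  m := p
  hm := hp
  X := fun w => w
  St := Unit
  J := fun _ => ()

theorem cent_unit {Om α : Type*} [Fintype Om] {p : Om → ℝ} (hp : IsPM p) (f : Om → α) :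
    cent p f (fun _ => ()) = ent p f := by
  unfold cent
  rw [ent_const hp (f := fun _ : Om => ()) (fun _ _ => rfl), sub_zero]
  refine ent_congr p fun w w' => ?_
  rw [pr_eq]
  exact ⟨fun h => h.1, fun h => ⟨h, rfl⟩⟩

theorem law_self (p : (Fin n → ZMod 2) → ℝ) (x : Fin n → ZMod 2) :
    law p (fun w => w) x = p x := by
  classical
  unfold law
  rw [Finset.sum_eq_single x]
  · simp
  · intro b _ hb
    rw [if_neg hb]
  · simp

theorem H_one (p : (Fin n → ZMod 2) → ℝ) (hp : IsPM p) :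
    F2.H (one p hp) = ∑ x, Real.negMulLog (p x) := by
  unfold F2.H
  have h1 : cent (one p hp).m (one p hp).X (one p hp).J = ent p (fun w => w) := cent_unit hp _
  rw [h1, ent_eq_sum]
  refine Finset.sum_congr rfl fun x _ => ?_
  rw [law_self]

/-- the average over a subspace -/
def avg (H : Submodule (ZMod 2) (Fin n → ZMod 2)) (p : (Fin n → ZMod 2) → ℝ)
    (x : Fin n → ZMod 2) : ℝ :=
  (∑ᶠ h : H, p (x + h)) / 2 ^ Module.finrank (ZMod 2) H

theorem card_sub (H : Submodule (ZMod 2) (Fin n → ZMod 2)) :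
    (Nat.card H : ℝ) = 2 ^ Module.finrank (ZMod 2) H := by
  have h3 := Module.natCard_eq_pow_finrank (K := ZMod 2) (V := H)
  rw [h3]
  simp

theorem ls_sub (H : Submodule (ZMod 2) (Fin n → ZMod 2)) :
    F2.ls H.toAddSubgroup = Module.finrank (ZMod 2) H * Real.log 2 := by
  unfold F2.ls
  have h4 : Nat.card H.toAddSubgroup = Nat.card H := rfl
  rw [h4, card_sub, Real.log_pow]

theorem ls_top' : F2.ls (⊤ : AddSubgroup (Fin n → ZMod 2)) = n * Real.log 2 := by
  have h := ls_sub (⊤ : Submodule (ZMod 2) (Fin n → ZMod 2))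
  have h2 : (⊤ : Submodule (ZMod 2) (Fin n → ZMod 2)).toAddSubgroup = ⊤ := rfl
  rw [h2] at h
  rw [h, finrank_top]
  simp

theorem fib_q (H : Submodule (ZMod 2) (Fin n → ZMod 2)) (p : (Fin n → ZMod 2) → ℝ)
    (x : Fin n → ZMod 2) :
    fib p (fun w => F2.q H.toAddSubgroup w) x = 2 ^ Module.finrank (ZMod 2) H * avg H p x := by
  classical
  have h0 : (2 : ℝ) ^ Module.finrank (ZMod 2) H ≠ 0 := by positivity
  unfold avg
  rw [mul_div_cancel₀ _ h0, finsum_eq_sum_of_fintype]
  have hf : fib p (fun w => F2.q H.toAddSubgroup w) x =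
      ∑ w ∈ Finset.univ.filter (fun w => F2.q H.toAddSubgroup w = F2.q H.toAddSubgroup x), p w := by
    rw [Finset.sum_filter]
    unfold fib
    exact Finset.sum_congr rfl fun w _ => by congr
  rw [hf]
  symm
  refine Finset.sum_bij (fun (h : H) _ => x + (h : Fin n → ZMod 2)) ?_ ?_ ?_ ?_
  · intro h _
    rw [Finset.mem_filter]
    refine ⟨Finset.mem_univ _, ?_⟩
    rw [F2.B.q_eq]
    simp
  · intro a _ b _ hab
    exact Subtype.ext (add_left_cancel hab)
  · intro b hb
    rw [Finset.mem_filter, F2.B.q_eq] at hb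
    refine ⟨⟨b - x, hb.2⟩, Finset.mem_univ _, ?_⟩
    simp
  · intro a _
    rfl

theorem avg_add (H : Submodule (ZMod 2) (Fin n → ZMod 2)) (p : (Fin n → ZMod 2) → ℝ)
    (x : Fin n → ZMod 2) (h : H) : avg H p (x + h) = avg H p x := by
  have h0 : (2 : ℝ) ^ Module.finrank (ZMod 2) H ≠ 0 := by positivity
  have h1 := fib_q H p (x + h)
  have h2 := fib_q H p x
  have h3 : fib p (fun w => F2.q H.toAddSubgroup w) (x + h)
      = fib p (fun w => F2.q H.toAddSubgroup w) x := by
    unfold fib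
    refine Finset.sum_congr rfl fun w _ => ?_
    have : F2.q H.toAddSubgroup (x + h) = F2.q H.toAddSubgroup x := by
      rw [F2.B.q_eq]; simp
    beta_reduce
    rw [this]
  rw [h1, h2] at h3
  exact mul_left_cancel₀ h0 h3

theorem sum_avg (H : Submodule (ZMod 2) (Fin n → ZMod 2)) (p u : (Fin n → ZMod 2) → ℝ)
    (hu : ∀ x (h : H), u (x + h) = u x) : ∑ x, avg H p x * u x = ∑ x, p x * u x := by
  classical
  have h0 : (2 : ℝ) ^ Module.finrank (ZMod 2) H ≠ 0 := by positivity
  have h1 : ∀ x, avg H p x * u x = (∑ h : H, p (x + h) * u (x + h)) / 2 ^ Module.finrank (ZMod 2) H := by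
    intro x
    unfold avg
    rw [finsum_eq_sum_of_fintype, div_mul_eq_mul_div, Finset.sum_mul]
    congr 1
    exact Finset.sum_congr rfl fun h _ => by rw [hu]
  simp only [h1]
  rw [← Finset.sum_div, Finset.sum_comm]
  have h2 : ∀ h : H, ∑ x, p (x + h) * u (x + h) = ∑ x, p x * u x := fun h =>
    Equiv.sum_comp (Equiv.addRight (h : Fin n → ZMod 2)) (fun x => p x * u x)
  simp only [h2]
  rw [Finset.sum_const, nsmul_eq_mul, Finset.card_univ, ← Nat.card_eq_fintype_card, card_sub]
  field_simp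

theorem hh_one (H : Submodule (ZMod 2) (Fin n → ZMod 2)) (p : (Fin n → ZMod 2) → ℝ)
    (hp : IsPM p) :
    F2.hh (one p hp) H.toAddSubgroup = ∑ x, Real.negMulLog (avg H p x) := by
  classical
  have h0 : (0 : ℝ) < 2 ^ Module.finrank (ZMod 2) H := by positivity
  unfold F2.hh
  have h1 : cent (one p hp).m (fun w => F2.q H.toAddSubgroup ((one p hp).X w)) (one p hp).J
      = ent p (fun w => F2.q H.toAddSubgroup w) := cent_unit hp _
  rw [h1, ls_sub]
  have h2 : ∑ x, Real.negMulLog (avg H p x) = -∑ x, avg H p x * Real.log (avg H p x) := by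
    rw [← Finset.sum_neg_distrib]
    exact Finset.sum_congr rfl fun x _ => by unfold Real.negMulLog; ring
  rw [h2, sum_avg H p (fun x => Real.log (avg H p x)) (fun x h => by rw [avg_add])]
  unfold ent
  have h3 : ∀ w, p w * -Real.log (fib p (fun w => F2.q H.toAddSubgroup w) w)
      = -(p w * Real.log (avg H p w)) - p w * (Module.finrank (ZMod 2) H * Real.log 2) := by
    intro w
    rcases (hp.nonneg w).eq_or_lt with h | h
    · rw [← h]; ring
    have h4 := fib_pos hp (fun w => F2.q H.toAddSubgroup w) h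
    have h5 := fib_q H p w
    have h6 : 0 < avg H p w := by
      rw [h5] at h4
      exact (mul_pos_iff_of_pos_left h0).1 h4
    rw [h5, Real.log_mul h0.ne' h6.ne', Real.log_pow]
    ring
  rw [Finset.sum_congr rfl fun w _ => h3 w, Finset.sum_sub_distrib, Finset.sum_neg_distrib,
    ← Finset.sum_mul, hp.sum_one]
  ring

theorem H_add_one (p r : (Fin n → ZMod 2) → ℝ) (hp : IsPM p) (hr : IsPM r) :
    F2.H (F2.add (one p hp) (one r hr)) = ∑ z, Real.negMulLog (∑ x, p x * r (z - x)) := by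
  classical
  unfold F2.H
  have h1 : cent (F2.add (one p hp) (one r hr)).m (F2.add (one p hp) (one r hr)).X
      (F2.add (one p hp) (one r hr)).J = ent (prodPM p r) (fun w => w.1 + w.2) := by
    have h2 := cent_unit (isPM_prod hp hr) (fun w : (Fin n → ZMod 2) × (Fin n → ZMod 2) => w.1 + w.2)
    rw [← h2]
    refine cent_congr _ (fun w w' => ?_) fun w w' _ => Iff.rfl
    exact ⟨fun _ => rfl, fun _ => rfl⟩
  rw [h1, ent_eq_sum]
  refine Finset.sum_congr rfl fun z _ => ?_
  congr 1
  unfold law prodPM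
  rw [Fintype.sum_prod_type]
  refine Finset.sum_congr rfl fun x _ => ?_
  rw [Finset.sum_eq_single (z - x)]
  · simp
  · intro b _ hb
    rw [if_neg]
    intro h
    exact hb (by rw [← h]; simp)
  · simp

/-- (E'') for two laws. -/
theorem inv {C : ℝ} (hE : F2.B.EPP C) (p r : (Fin n → ZMod 2) → ℝ)
    (hp0 : ∀ x, 0 ≤ p x) (hp1 : ∑ x, p x = 1) (hr0 : ∀ x, 0 ≤ r x) (hr1 : ∑ x, r x = 1)
    (s : ℝ) (hs : 0 < s)
    (h : ∀ H : Submodule (ZMod 2) (Fin n → ZMod 2),
      n * Real.log 2 - ∑ x, Real.negMulLog ((∑ᶠ h : H, p (x + h)) / 2 ^ Module.finrank (ZMod 2) H)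
        ≤ s * ((n : ℝ) - Module.finrank (ZMod 2) H) * Real.log 2) :
    n * Real.log 2 - ∑ z, Real.negMulLog (∑ x, p x * r (z - x))
      ≤ C * s * (n * Real.log 2 - ∑ x, Real.negMulLog (r x)) := by
  have hp : IsPM p := ⟨hp0, hp1⟩
  have hr : IsPM r := ⟨hr0, hr1⟩
  have h1 := hE (Fin n → ZMod 2) ⊤ (one p hp) (one r hr) s hs (fun _ _ _ => trivial)
    (fun _ _ _ => trivial) (fun W _ => by
      have h2 := h (AddSubgroup.toZModSubmodule 2 W)
      have h3 := hh_one (AddSubgroup.toZModSubmodule 2 W) p hp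
      have h4 := ls_sub (AddSubgroup.toZModSubmodule 2 W)
      have h5 : (AddSubgroup.toZModSubmodule 2 W).toAddSubgroup = W := by
        ext x
        simp
      rw [h5] at h3 h4
      unfold avg at h3
      rw [h3, h4, ls_top']
      linarith)
  rw [H_add_one, H_one, ls_top'] at h1
  exact h1

end

end Pool.Agent.H66.EP
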