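import Pool.Agent.H66.EP.Final
import Pool.Agent.H66.EP.Inv
import Pool.Agent.H41.F2.EPP

/-! Popular sums in `F_2^n`: the complete statement. -/

set_option autoImplicit false

namespace Pool.Agent.H66.EP

open Finset

theorem main :
    (∃ C : ℝ, 0 < C ∧ ∀ k : ℕ, 2 ≤ k → ∀ n : ℕ, ∀ A : Finset (Fin n → ZMod 2), A.Nonempty →
      ∃ V : Submodule (ZMod 2) (Fin n → ZMod 2),
        (n : ℝ) - Module.finrank (ZMod 2) V ≤
          C * (Real.log ((2 : ℝ) ^ n / A.card)) ^ ((k : ℝ) / ((k : ℝ) - 1)) ∧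
        ∀ v ∈ V, (4 / 5) * (A.card : ℝ) ^ (2 * k) / (2 : ℝ) ^ n ≤
          ((Finset.univ.filter fun x : Fin (2 * k) → (Fin n → ZMod 2) =>
            (∀ i, x i ∈ A) ∧ ∑ i, x i = v).card : ℝ)) ∧
    (∃ c : ℝ, 0 < c ∧ ∀ k m : ℕ, 2 ≤ k → 1 ≤ m → ∀ K : ℝ, 0 ≤ K →
      ∃ (n : ℕ) (A : Finset (Fin n → ZMod 2)), A.card * 2 ^ m = 2 ^ n ∧
        ∀ V : Submodule (ZMod 2) (Fin n → ZMod 2),
          (∀ v ∈ V, Real.exp (-K) * (A.card : ℝ) ^ (2 * k) / (2 : ℝ) ^ n ≤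
            ((Finset.univ.filter fun x : Fin (2 * k) → (Fin n → ZMod 2) =>
              (∀ i, x i ∈ A) ∧ ∑ i, x i = v).card : ℝ)) →
          c * (m : ℝ) ^ ((k : ℝ) / ((k : ℝ) - 1)) ≤
            (K + 1) ^ (1 / ((k : ℝ) - 1)) * ((n : ℝ) - Module.finrank (ZMod 2) V)) ∧
    (∃ C : ℝ, 0 < C ∧ ∀ (n : ℕ) (p q : (Fin n → ZMod 2) → ℝ),
      (∀ x, 0 ≤ p x) → ∑ x, p x = 1 → (∀ x, 0 ≤ q x) → ∑ x, q x = 1 → ∀ s : ℝ, 0 < s →
      (∀ H : Submodule (ZMod 2) (Fin n → ZMod 2),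
        n * Real.log 2 - ∑ x, Real.negMulLog
            ((∑ᶠ h : H, p (x + h)) / 2 ^ Module.finrank (ZMod 2) H)
          ≤ s * ((n : ℝ) - Module.finrank (ZMod 2) H) * Real.log 2) →
      n * Real.log 2 - ∑ z, Real.negMulLog (∑ x, p x * q (z - x))
        ≤ C * s * (n * Real.log 2 - ∑ x, Real.negMulLog (q x))) := by
  obtain ⟨C, hC, hE⟩ := F2.III.epp_main
  obtain ⟨h1, h2⟩ := final hC hE
  exact ⟨h1, h2, C, by linarith, fun n p q hp0 hp1 hq0 hq1 s hs h =>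
    inv hE p q hp0 hp1 hq0 hq1 s hs h⟩

end Pool.Agent.H66.EP
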